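import Pool.Agent.H22.CM.Stm
import Pool.Graph.R_seed8.Y410.PAR.EXT

/-! # CREW CM: parts EXC, VCM, E8 -/

set_option autoImplicit false

namespace H6.CM

open Pool.Agent.Y382.PAR Pool.Agent.Y410.PAR H22.CM

theorem t_EXC : S_EXC := by
  intro G _ _ N _ hQ hN
  obtain ⟨η, H0, hH0⟩ := hQ
  obtain ⟨φ, Φ, hφ⟩ := hN
  set x : G ⧸ N → G := fun i => Quotient.out i with hxdef
  have hx : ∀ i, ((x i : G) : G ⧸ N) = i := fun i => QuotientGroup.out_eq' i
  set y : G ⧸ N → G := fun i => x (η i) with hydef
  have hy : ∀ i, ((y i : G) : G ⧸ N) = η i := fun i => hx _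
  have hyi : Function.Injective fun i => ((y i : G) : G ⧸ N) := by
    simp only [hy]
    exact η.injective
  have hyi' : Function.Injective fun i => i * ((y i : G) : G ⧸ N) := by
    simp only [hy, ← hH0]
    exact H0.injective
  have h1 : Function.Injective (ff hx y (fun _ n => φ n)) :=
    ff_inj hx hyi fun i => φ.injective
  have h2 : Function.Injective (fun g => g * ff hx y (fun _ n => φ n) g) := by
    refine mul_ff_inj hx hyi' fun i => ?_
    simp only [← hφ]
    exact Φ.injective
  exact ⟨Equiv.ofBijective _ (Finite.injective_iff_bijective.1 h1),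
    Equiv.ofBijective _ (Finite.injective_iff_bijective.1 h2), fun g => rfl⟩

/-- coordinates of a group of exponent two -/
theorem el2 (P : Type) [Group P] (n : ℕ) (hc : Nat.card P = 2 ^ n) (h2 : ∀ x : P, x * x = 1) :
    ∃ E : (Fin n → ZMod 2) ≃ P, ∀ v w, E (v + w) = E v * E w := by
  have hcomm : ∀ a b : P, a * b = b * a := by
    intro a b
    have ha : a⁻¹ = a := inv_eq_of_mul_eq_one_left (h2 a)
    have hb : b⁻¹ = b := inv_eq_of_mul_eq_one_left (h2 b)
    have hab : (a * b)⁻¹ = a * b := inv_eq_of_mul_eq_one_left (h2 (a * b))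
    rw [mul_inv_rev, ha, hb] at hab
    exact hab.symm
  let _ : CommGroup P := { (inferInstance : Group P) with mul_comm := hcomm }
  have hfin : Finite P := Nat.finite_of_card_ne_zero (by rw [hc]; positivity)
  let _ : Module (ZMod 2) (Additive P) := AddCommGroup.zmodModule (n := 2) (by
    intro x
    rw [two_nsmul]
    exact h2 (Additive.toMul x))
  have hfa : Finite (Additive P) := hfin
  have hd : Module.finrank (ZMod 2) (Additive P) = n := by
    have h3 := Module.natCard_eq_pow_finrank (K := ZMod 2) (V := Additive P)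
    have h4 : Nat.card (Additive P) = Nat.card P := rfl
    rw [h4, hc, Nat.card_zmod] at h3
    exact (Nat.pow_right_injective (le_refl 2) h3).symm
  let L : (Fin n → ZMod 2) ≃ₗ[ZMod 2] Additive P :=
    (LinearEquiv.funCongrLeft (ZMod 2) (ZMod 2) (finCongr hd.symm).symm).trans
      (Module.finBasis (ZMod 2) (Additive P)).equivFun.symm
  refine ⟨L.toEquiv.trans Additive.toMul, ?_⟩
  intro v w
  show Additive.toMul (L (v + w)) = Additive.toMul (L v) * Additive.toMul (L w)
  rw [map_add]
  rfl

theorem tr2 (P : Type) [Group P] (n : ℕ) (E : (Fin n → ZMod 2) ≃ P) (hE : ∀ v w, E (v + w) = E v * E w)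
    (f F : Equiv.Perm (Fin n → ZMod 2)) (h : ∀ v, F v = v + f v) : HasCM P := by
  refine ⟨E.permCongr f, E.permCongr F, ?_⟩
  intro x
  rw [Equiv.permCongr_apply, Equiv.permCongr_apply, h, hE, Equiv.apply_symm_apply]

theorem t_VCM : S_VCM := by
  intro Q _ hc h2
  obtain ⟨E, hE⟩ := el2 Q 2 (by rw [hc]; norm_num) h2
  have h1 : Function.Injective (fun v : Fin 2 → ZMod 2 => (![v 1, v 0 + v 1] : Fin 2 → ZMod 2)) := by
    decide
  have h3 : Function.Injective (fun v : Fin 2 → ZMod 2 => v + (![v 1, v 0 + v 1] : Fin 2 → ZMod 2)) := by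
    decide
  exact tr2 Q 2 E hE (Equiv.ofBijective _ (Finite.injective_iff_bijective.1 h1))
    (Equiv.ofBijective _ (Finite.injective_iff_bijective.1 h3)) fun v => rfl

theorem t_E8 : S_E8 := by
  intro Q _ hc h2
  obtain ⟨E, hE⟩ := el2 Q 3 (by rw [hc]; norm_num) h2
  have h1 : Function.Injective
      (fun v : Fin 3 → ZMod 2 => (![v 2, v 0 + v 2, v 1] : Fin 3 → ZMod 2)) := by
    decide
  have h3 : Function.Injective
      (fun v : Fin 3 → ZMod 2 => v + (![v 2, v 0 + v 2, v 1] : Fin 3 → ZMod 2)) := by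
    decide
  exact tr2 Q 3 E hE (Equiv.ofBijective _ (Finite.injective_iff_bijective.1 h1))
    (Equiv.ofBijective _ (Finite.injective_iff_bijective.1 h3)) fun v => rfl

end H6.CM
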