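import Pool.Agent.H22.CM.Stm2

/-! # CREW CM: part DTR -/

set_option autoImplicit false

namespace H6.CM

open Pool.Agent.Y382.PAR H22.CM

theorem exists_derangement (J : Type) [Finite J] (h : 2 ≤ Nat.card J) :
    ∃ w : Equiv.Perm J, ∀ i, w i ≠ i := by
  obtain ⟨k, hk⟩ : ∃ k, Nat.card J = k + 2 := ⟨Nat.card J - 2, by omega⟩
  let e : J ≃ Fin (k + 2) := Finite.equivFinOfCardEq hk
  refine ⟨e.trans ((finRotate (k + 2)).trans e.symm), ?_⟩
  intro i hi
  have h1 : finRotate (k + 2) (e i) = e i := by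
    have h2 := congrArg e hi
    simpa using h2
  rw [finRotate_succ_apply] at h1
  have h3 : (1 : Fin (k + 2)) = 0 := by
    have h4 := add_eq_left.1 h1
    exact h4
  exact absurd h3 (by simp)

theorem t_DTR : S_DTR := by
  classical
  intro G _ _ H g hg hdc hidx hcm
  obtain ⟨θ, Θ, hΘ⟩ := hcm
  have D : ∀ x y, x ∉ H → y ∉ H → ∃ a ∈ H, ∃ b ∈ H, x = a * y * b := by
    intro x y hx hy
    obtain ⟨a1, ha1, b1, hb1, h1⟩ := hdc x hx
    obtain ⟨a2, ha2, b2, hb2, h2⟩ := hdc y hy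
    refine ⟨a1 * a2⁻¹, H.mul_mem ha1 (H.inv_mem ha2), b2⁻¹ * b1, H.mul_mem (H.inv_mem hb2) hb1, ?_⟩
    rw [h1, h2]
    group
  have hmk : ∀ x : G, ((x : G ⧸ H) = ((1 : G) : G ⧸ H)) ↔ x ∈ H := by
    intro x
    rw [QuotientGroup.eq, mul_one, H.inv_mem_iff]
  let J := {i : G ⧸ H // i ≠ ((1 : G) : G ⧸ H)}
  have hJ : 2 ≤ Nat.card J := by
    have h1 : Nat.card J = Nat.card (G ⧸ H) - 1 := by
      have := Fintype.ofFinite (G ⧸ H)
      rw [Nat.card_eq_fintype_card, Nat.card_eq_fintype_card]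
      exact Set.card_ne_eq _
    rw [h1]
    have h2 : H.index = Nat.card (G ⧸ H) := rfl
    omega
  obtain ⟨w, hw⟩ := exists_derangement J hJ
  set s : J → G := fun i => Quotient.out i.1 with hsdef
  have hsq : ∀ i, ((s i : G) : G ⧸ H) = i.1 := fun i => QuotientGroup.out_eq' i.1
  have hs : ∀ i : J, s i ∉ H := by
    intro i hi
    exact i.2 ((hsq i).symm.trans ((hmk _).2 hi))
  choose a ha b hb hab using fun i : J => D (s i)⁻¹ (s i) (fun h => hs i (H.inv_mem_iff.1 h)) (hs i)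
  set z : J → G := fun i => s i * b i with hzdef
  have hz1 : ∀ i, ((z i : G) : G ⧸ H) = i.1 := by
    intro i
    rw [hzdef]
    simp only
    rw [QuotientGroup.mk_mul_of_mem _ (hb i)]
    exact hsq i
  have hz3 : ∀ i, z i = (a i)⁻¹ * (s i)⁻¹ := by
    intro i
    rw [hab i, hzdef]
    group
  have hz2 : ∀ i j, z i * (z j)⁻¹ ∈ H → i = j := by
    intro i j h
    rw [hz3 i, hz3 j, mul_inv_rev, inv_inv, inv_inv] at h
    have h1 : (s i)⁻¹ * s j ∈ H := by
      have h2 := H.mul_mem (H.mul_mem (ha i) h) (H.inv_mem (ha j))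
      have h3 : a i * ((a i)⁻¹ * (s i)⁻¹ * (s j * a j)) * (a j)⁻¹ = (s i)⁻¹ * s j := by group
      rwa [h3] at h2
    have h4 : ((s i : G) : G ⧸ H) = ((s j : G) : G ⧸ H) := QuotientGroup.eq.2 h1
    rw [hsq, hsq] at h4
    exact Subtype.ext h4
  have hz4 : ∀ i, z i ∉ H := fun i hi => i.2 ((hz1 i).symm.trans ((hmk _).2 hi))
  have hsw : ∀ i, (s i)⁻¹ * s (w i) ∉ H := by
    intro i h
    have h4 : ((s i : G) : G ⧸ H) = ((s (w i) : G) : G ⧸ H) := QuotientGroup.eq.2 h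
    rw [hsq, hsq] at h4
    exact hw i (Subtype.ext h4).symm
  choose c hc d hd hcd using fun i : J => D ((s i)⁻¹ * s (w i)) (z i) (hsw i) (hz4 i)
  set y : J → G := fun i => s i * c i with hydef
  have hy1 : ∀ i, ((y i : G) : G ⧸ H) = i.1 := by
    intro i
    rw [hydef]
    simp only
    rw [QuotientGroup.mk_mul_of_mem _ (hc i)]
    exact hsq i
  have hy2 : ∀ i, ((y i * z i : G) : G ⧸ H) = (w i).1 := by
    intro i
    have h1 : y i * z i = s (w i) * (d i)⁻¹ := by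
      have h2 := hcd i
      have h3 : c i * z i = (s i)⁻¹ * s (w i) * (d i)⁻¹ := by
        rw [h2]
        group
      rw [hydef]
      simp only
      rw [mul_assoc, h3]
      group
    rw [h1, QuotientGroup.mk_mul_of_mem _ (H.inv_mem (hd i))]
    exact hsq _
  -- coordinates
  have hco : ∀ x, x ∉ H → ∃ (i : J) (h : H), x = y i * h := by
    intro x hx
    have hi : (x : G ⧸ H) ≠ ((1 : G) : G ⧸ H) := fun h => hx ((hmk x).1 h)
    refine ⟨⟨x, hi⟩, ⟨(y ⟨x, hi⟩)⁻¹ * x, QuotientGroup.eq.1 (hy1 ⟨x, hi⟩)⟩, ?_⟩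
    simp
  have hjm : ∀ (i : J) (q : H), (((q : G)⁻¹ * y i : G) : G ⧸ H) ≠ ((1 : G) : G ⧸ H) := by
    intro i q h
    have h1 := (hmk _).1 h
    have h2 : y i ∈ H := by
      have := H.mul_mem q.2 h1
      rwa [mul_inv_cancel_left] at this
    exact i.2 ((hy1 i).symm.trans ((hmk _).2 h2))
  set jj : J → H → J := fun i q => ⟨(((q : G)⁻¹ * y i : G) : G ⧸ H), hjm i q⟩ with hjj
  have hjj2 : ∀ (i : J) (q : H), (((q : G) * z (jj i q) : G) : G ⧸ H) = i.1 := by
    intro i q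
    have h1 : ((z (jj i q) : G) : G ⧸ H) = (((q : G)⁻¹ * y i : G) : G ⧸ H) := hz1 (jj i q)
    have h2 : (((q : G) * z (jj i q) : G) : G ⧸ H) = (((q : G) * ((q : G)⁻¹ * y i) : G) : G ⧸ H) := by
      rw [QuotientGroup.eq] at h1 ⊢
      have h3 : ((q : G) * z (jj i q))⁻¹ * ((q : G) * ((q : G)⁻¹ * y i)) =
          (z (jj i q))⁻¹ * ((q : G)⁻¹ * y i) := by group
      rw [h3]
      exact h1
    rw [h2, mul_inv_cancel_left]
    exact hy1 i
  have hne : Nonempty J := (Nat.card_pos_iff.1 (by omega)).1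
  choose! I Hh hIH using hco
  set f : G → G := fun x => (θ (Hh x) : G) * z (jj (I x) (Θ (Hh x))) with hf
  have hxf : ∀ x, x ∉ H → x * f x = y (I x) * ((Θ (Hh x) : H) * z (jj (I x) (Θ (Hh x)))) := by
    intro x hx
    have h1 : ((Θ (Hh x) : H) : G) = (Hh x : G) * (θ (Hh x) : G) := by
      rw [hΘ]
      rfl
    have h2 : x * f x = (y (I x) * (Hh x : G)) * f x := by rw [← hIH x hx]
    rw [h2, hf]
    simp only
    rw [h1]
    simp only [mul_assoc]
  have hcos : ∀ x, x ∉ H → ((x * f x : G) : G ⧸ H) = (w (I x)).1 := by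
    intro x hx
    rw [hxf x hx, ← hy2 (I x)]
    have h1 : (((Θ (Hh x) : G) * z (jj (I x) (Θ (Hh x))) : G) : G ⧸ H) = ((z (I x) : G) : G ⧸ H) := by
      rw [hjj2, hz1]
    rw [QuotientGroup.eq] at h1 ⊢
    have h3 : (y (I x) * ((Θ (Hh x) : G) * z (jj (I x) (Θ (Hh x)))))⁻¹ * (y (I x) * z (I x)) =
        ((Θ (Hh x) : G) * z (jj (I x) (Θ (Hh x))))⁻¹ * z (I x) := by group
    rw [h3]
    exact h1
  have hII : ∀ x x', x ∉ H → x' ∉ H → I x = I x' → Hh x = Hh x' → x = x' := by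
    intro x x' hx hx' h1 h2
    rw [hIH x hx, hIH x' hx', h1, h2]
  refine ⟨f, ?_, ?_, ?_⟩
  · intro x hx
    constructor
    · intro h
      have h1 : z (jj (I x) (Θ (Hh x))) ∈ H := by
        have h2 := H.mul_mem (H.inv_mem (θ (Hh x)).2) h
        rw [hf] at h2
        simp only at h2
        rwa [inv_mul_cancel_left] at h2
      exact hz4 _ h1
    · intro h
      exact (w (I x)).2 ((hcos x hx).symm.trans ((hmk _).2 h))
  · intro x hx x' hx' h
    have hx1 : x ∉ H := hx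
    have hx1' : x' ∉ H := hx'
    rw [hf] at h
    simp only at h
    have h1 : jj (I x) (Θ (Hh x)) = jj (I x') (Θ (Hh x')) := by
      apply hz2
      have h2 : z (jj (I x) (Θ (Hh x))) * (z (jj (I x') (Θ (Hh x'))))⁻¹ =
          (θ (Hh x) : G)⁻¹ * (θ (Hh x') : G) := by
        rw [mul_inv_eq_iff_eq_mul, mul_assoc, ← h]
        group
      rw [h2]
      exact H.mul_mem (H.inv_mem (θ (Hh x)).2) (θ (Hh x')).2
    rw [h1] at h
    have h3 : Hh x = Hh x' := θ.injective (Subtype.ext (mul_right_cancel h))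
    have h4 : I x = I x' := by
      apply Subtype.ext
      rw [← hjj2 (I x) (Θ (Hh x)), ← hjj2 (I x') (Θ (Hh x')), h1, h3]
    exact hII x x' hx1 hx1' h4 h3
  · intro x hx x' hx' h
    have hx1 : x ∉ H := hx
    have hx1' : x' ∉ H := hx'
    simp only at h
    have h1 : I x = I x' := by
      apply w.injective
      apply Subtype.ext
      rw [← hcos x hx1, ← hcos x' hx1', h]
    rw [hxf x hx1, hxf x' hx1', h1] at h
    have h2 := mul_left_cancel h
    have h3 : jj (I x') (Θ (Hh x)) = jj (I x') (Θ (Hh x')) := by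
      apply hz2
      have h4 : z (jj (I x') (Θ (Hh x))) * (z (jj (I x') (Θ (Hh x'))))⁻¹ =
          (Θ (Hh x) : G)⁻¹ * (Θ (Hh x') : G) := by
        rw [mul_inv_eq_iff_eq_mul, mul_assoc, ← h2]
        group
      rw [h4]
      exact H.mul_mem (H.inv_mem (Θ (Hh x)).2) (Θ (Hh x')).2
    rw [h3] at h2
    have h5 : Hh x = Hh x' := Θ.injective (Subtype.ext (mul_right_cancel h2))
    exact hII x x' hx1 hx1' h1 h5

end H6.CM
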