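import Pool.Agent.H22.CM.Stm3

/-! # CREW CM: part DC4 -/

set_option autoImplicit false

namespace H6.CM

open Pool.Agent.Y382.PAR H22.CM

theorem mkH_one_iff {G : Type} [Group G] (H : Subgroup G) (x : G) :
    DoubleCoset.mk H H x = DoubleCoset.mk H H 1 ↔ x ∈ H := by
  rw [DoubleCoset.eq]
  constructor
  · rintro ⟨h, hh, k, hk, he⟩
    have h1 : x = h⁻¹ * k⁻¹ := by
      have h2 : h * x * k = 1 := he.symm
      have h3 : x = h⁻¹ * (h * x * k) * k⁻¹ := by group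
      rw [h3, h2]
      group
    rw [h1]
    exact H.mul_mem (H.inv_mem hh) (H.inv_mem hk)
  · intro hx
    exact ⟨x⁻¹, H.inv_mem hx, 1, H.one_mem, by group⟩

theorem t_DC4 : S_DC4 := by
  classical
  intro hDC1 hDC2 hDC3 G _ _ H hcond hcm
  obtain ⟨φ, ψ, hφ1, hψ1, hφc, hψc, hφψ⟩ := hcond
  obtain ⟨z, hz1, hz2⟩ := hDC1 G H
  obtain ⟨τ, hτ⟩ := hDC2 G H φ hφc
  obtain ⟨w, hw⟩ := hDC3 G H φ ψ hψc hφψ
  obtain ⟨θ, Θ, hΘ⟩ := hcm
  have hmk : ∀ x : G, ((x : G ⧸ H) = ((1 : G) : G ⧸ H)) ↔ x ∈ H := by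
    intro x
    rw [QuotientGroup.eq, mul_one, H.inv_mem_iff]
  set s : G ⧸ H → G := fun i => Quotient.out i with hsdef
  have hsq : ∀ i, ((s i : G) : G ⧸ H) = i := fun i => QuotientGroup.out_eq' i
  have hτz : ∀ i, DoubleCoset.mk H H (z (τ i)) = φ (DoubleCoset.mk H H (s i)) := by
    intro i
    apply hτ
    rw [hsq, hz1]
  have hws : ∀ i, DoubleCoset.mk H H ((s i)⁻¹ * s (w i)) = φ (DoubleCoset.mk H H (s i)) := by
    intro i
    refine (hw (s i) (s (w i)) ?_).2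
    rw [hsq, hsq]
  have hcd : ∀ i, ∃ c ∈ H, ∃ d ∈ H, (s i)⁻¹ * s (w i) = c * z (τ i) * d := by
    intro i
    have h1 : DoubleCoset.mk H H (z (τ i)) = DoubleCoset.mk H H ((s i)⁻¹ * s (w i)) := by
      rw [hτz, hws]
    rw [DoubleCoset.eq] at h1
    exact h1
  choose c hc d hd hcd using hcd
  set y : G ⧸ H → G := fun i => s i * c i with hydef
  have hy1 : ∀ i, ((y i : G) : G ⧸ H) = i := by
    intro i
    rw [hydef]
    simp only
    rw [QuotientGroup.mk_mul_of_mem _ (hc i)]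
    exact hsq i
  have hy2 : ∀ i, ((y i * z (τ i) : G) : G ⧸ H) = w i := by
    intro i
    have h1 : y i * z (τ i) = s (w i) * (d i)⁻¹ := by
      have h2 := hcd i
      have h3 : c i * z (τ i) = (s i)⁻¹ * s (w i) * (d i)⁻¹ := by
        rw [h2]
        group
      rw [hydef]
      simp only
      rw [mul_assoc, h3]
      group
    rw [h1, QuotientGroup.mk_mul_of_mem _ (H.inv_mem (hd i))]
    exact hsq _
  -- coordinates
  have hco : ∀ x : G, ∃ (h : H), x = y (x : G ⧸ H) * h := by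
    intro x
    refine ⟨⟨(y (x : G ⧸ H))⁻¹ * x, QuotientGroup.eq.1 (hy1 (x : G ⧸ H))⟩, ?_⟩
    simp
  choose Hh hIH using hco
  set jj : G ⧸ H → H → G ⧸ H := fun i q => (((q : G)⁻¹ * z (τ i) : G) : G ⧸ H) with hjj
  have hjj2 : ∀ (i : G ⧸ H) (q : H), (((q : G) * z (jj i q) : G) : G ⧸ H) = τ i := by
    intro i q
    have h1 : ((z (jj i q) : G) : G ⧸ H) = (((q : G)⁻¹ * z (τ i) : G) : G ⧸ H) := hz1 (jj i q)
    have h2 : (((q : G) * z (jj i q) : G) : G ⧸ H) = (((q : G) * ((q : G)⁻¹ * z (τ i)) : G) : G ⧸ H) := by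
      rw [QuotientGroup.eq] at h1 ⊢
      have h3 : ((q : G) * z (jj i q))⁻¹ * ((q : G) * ((q : G)⁻¹ * z (τ i))) =
          (z (jj i q))⁻¹ * ((q : G)⁻¹ * z (τ i)) := by group
      rw [h3]
      exact h1
    rw [h2, mul_inv_cancel_left]
    exact hz1 _
  set f : G → G := fun x => (θ (Hh x) : G) * z (jj (x : G ⧸ H) (Θ (Hh x))) with hf
  have hxf : ∀ x, x * f x = y (x : G ⧸ H) * ((Θ (Hh x) : H) * z (jj (x : G ⧸ H) (Θ (Hh x)))) := by
    intro x
    have h1 : ((Θ (Hh x) : H) : G) = (Hh x : G) * (θ (Hh x) : G) := by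
      rw [hΘ]
      rfl
    have h2 : x * f x = (y (x : G ⧸ H) * (Hh x : G)) * f x := by rw [← hIH x]
    rw [h2, hf]
    simp only
    rw [h1]
    simp only [mul_assoc]
  have hcos : ∀ x, ((x * f x : G) : G ⧸ H) = w (x : G ⧸ H) := by
    intro x
    rw [hxf x, ← hy2 (x : G ⧸ H)]
    have h1 : (((Θ (Hh x) : G) * z (jj (x : G ⧸ H) (Θ (Hh x))) : G) : G ⧸ H) =
        ((z (τ (x : G ⧸ H)) : G) : G ⧸ H) := by
      rw [hjj2, hz1]
    rw [QuotientGroup.eq] at h1 ⊢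
    have h3 : (y (x : G ⧸ H) * ((Θ (Hh x) : G) * z (jj (x : G ⧸ H) (Θ (Hh x)))))⁻¹ *
        (y (x : G ⧸ H) * z (τ (x : G ⧸ H))) =
        ((Θ (Hh x) : G) * z (jj (x : G ⧸ H) (Θ (Hh x))))⁻¹ * z (τ (x : G ⧸ H)) := by group
    rw [h3]
    exact h1
  have hII : ∀ x x' : G, (x : G ⧸ H) = (x' : G ⧸ H) → Hh x = Hh x' → x = x' := by
    intro x x' h1 h2
    rw [hIH x, hIH x', h1, h2]
  refine ⟨f, ?_, ?_, ?_⟩
  · intro x hx
    constructor
    · intro h
      have h1 : z (jj (x : G ⧸ H) (Θ (Hh x))) ∈ H := by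
        have h2 := H.mul_mem (H.inv_mem (θ (Hh x)).2) h
        rw [hf] at h2
        simp only at h2
        rwa [inv_mul_cancel_left] at h2
      have h2 : (((Θ (Hh x) : G) * z (jj (x : G ⧸ H) (Θ (Hh x))) : G) : G ⧸ H) = τ (x : G ⧸ H) := hjj2 _ _
      have h3 : τ (x : G ⧸ H) = ((1 : G) : G ⧸ H) := by
        rw [← h2, hmk]
        exact H.mul_mem (Θ (Hh x)).2 h1
      have h4 := hτ x 1 h3
      have h5 : DoubleCoset.mk H H x = DoubleCoset.mk H H 1 := by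
        apply φ.injective
        rw [← h4, hφ1]
      exact hx ((mkH_one_iff H x).1 h5)
    · intro h
      have h3 : w (x : G ⧸ H) = ((1 : G) : G ⧸ H) := by
        rw [← hcos x, hmk]
        exact h
      have h4 := (hw x 1 h3).1
      have h5 : DoubleCoset.mk H H x = DoubleCoset.mk H H 1 := by
        apply ψ.injective
        rw [← h4, hψ1]
      exact hx ((mkH_one_iff H x).1 h5)
  · intro x _ x' _ h
    rw [hf] at h
    simp only at h
    have h1 : jj (x : G ⧸ H) (Θ (Hh x)) = jj (x' : G ⧸ H) (Θ (Hh x')) := by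
      apply hz2
      have h2 : z (jj (x : G ⧸ H) (Θ (Hh x))) * (z (jj (x' : G ⧸ H) (Θ (Hh x'))))⁻¹ =
          (θ (Hh x) : G)⁻¹ * (θ (Hh x') : G) := by
        rw [mul_inv_eq_iff_eq_mul, mul_assoc, ← h]
        group
      rw [h2]
      exact H.mul_mem (H.inv_mem (θ (Hh x)).2) (θ (Hh x')).2
    rw [h1] at h
    have h3 : Hh x = Hh x' := θ.injective (Subtype.ext (mul_right_cancel h))
    have h4 : (x : G ⧸ H) = (x' : G ⧸ H) := by
      apply τ.injective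
      rw [← hjj2 (x : G ⧸ H) (Θ (Hh x)), ← hjj2 (x' : G ⧸ H) (Θ (Hh x')), h1, h3]
    exact hII x x' h4 h3
  · intro x _ x' _ h
    simp only at h
    have h1 : (x : G ⧸ H) = (x' : G ⧸ H) := by
      apply w.injective
      rw [← hcos x, ← hcos x', h]
    rw [hxf x, hxf x', h1] at h
    have h2 := mul_left_cancel h
    have h3 : jj (x' : G ⧸ H) (Θ (Hh x)) = jj (x' : G ⧸ H) (Θ (Hh x')) := by
      apply hz2
      have h4 : z (jj (x' : G ⧸ H) (Θ (Hh x))) * (z (jj (x' : G ⧸ H) (Θ (Hh x'))))⁻¹ =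
          (Θ (Hh x) : G)⁻¹ * (Θ (Hh x') : G) := by
        rw [mul_inv_eq_iff_eq_mul, mul_assoc, ← h2]
        group
      rw [h4]
      exact H.mul_mem (H.inv_mem (Θ (Hh x)).2) (Θ (Hh x')).2
    rw [h3] at h2
    have h5 : Hh x = Hh x' := Θ.injective (Subtype.ext (mul_right_cancel h2))
    exact hII x x' h1 h5

end H6.CM
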