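import Pool.Agent.H22.CM.Stm2
import Pool.Graph.R_seed8.Y77.PAR.ISO

/-! # CREW CM: part SYM -/

set_option autoImplicit false

namespace H6.CM

open Pool.Agent.Y382.PAR H22.CM

/-- the stabiliser of `0` in the symmetric group -/
theorem st_range (n : ℕ) : (Equiv.Perm.ofSubtype (p := fun x : Fin (n + 1) => x ≠ 0)).range =
    MulAction.stabilizer (Equiv.Perm (Fin (n + 1))) (0 : Fin (n + 1)) := by
  ext g
  rw [MulAction.mem_stabilizer_iff, MonoidHom.mem_range]
  constructor
  · rintro ⟨f, rfl⟩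
    exact Equiv.Perm.ofSubtype_apply_of_not_mem f (by simp)
  · intro h
    have h' : g 0 = 0 := h
    have h1 : ∀ x, g x ≠ 0 ↔ x ≠ 0 := by
      intro x
      constructor
      · intro hx hx0
        rw [hx0] at hx
        exact hx h'
      · intro hx hgx
        exact hx (g.injective (hgx.trans h'.symm))
    refine ⟨g.subtypePerm h1, Equiv.Perm.ofSubtype_subtypePerm h1 ?_⟩
    intro x hx hx0
    rw [hx0] at hx
    exact hx h'

theorem st_iso (n : ℕ) : Nonempty (Equiv.Perm (Fin n) ≃*
    MulAction.stabilizer (Equiv.Perm (Fin (n + 1))) (0 : Fin (n + 1))) := by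
  rw [← st_range]
  exact ⟨(Equiv.permCongrHom (finSuccAboveEquiv (0 : Fin (n + 1)))).trans
    (MonoidHom.ofInjective Equiv.Perm.ofSubtype_injective)⟩

theorem t_SYM (hDTR : S_DTR) (hHOLE : S_HOLE) (hS4 : S_S4) : S_SYM := by
  intro n hn
  induction n, hn using Nat.le_induction with
  | base => exact hS4
  | succ n hn ih =>
    set H : Subgroup (Equiv.Perm (Fin (n + 1))) :=
      MulAction.stabilizer (Equiv.Perm (Fin (n + 1))) (0 : Fin (n + 1)) with hH
    have hmem : ∀ g : Equiv.Perm (Fin (n + 1)), g ∈ H ↔ g 0 = 0 := fun g => Iff.rfl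
    obtain ⟨e⟩ := st_iso n
    have hpar : AllPar H := Pool.Agent.Y77.PAR.t_ISO _ _ e ih
    have hcm : HasCM H := by
      obtain ⟨f, F, h1, -, -⟩ := hpar 1 1
      exact ⟨f, F, h1⟩
    have h01 : (0 : Fin (n + 1)) ≠ (⟨1, by omega⟩ : Fin (n + 1)) := by
      intro h
      have := congrArg Fin.val h
      simp at this
    set o : Fin (n + 1) := ⟨1, by omega⟩ with ho
    refine hHOLE _ H (hDTR _ H (Equiv.swap 0 o) ?_ ?_ ?_ hcm) hpar
    · rw [hmem, Equiv.swap_apply_left]
      exact h01.symm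
    · intro x hx
      rw [hmem] at hx
      refine ⟨Equiv.swap o (x 0), ?_, (Equiv.swap 0 o)⁻¹ * (Equiv.swap o (x 0))⁻¹ * x, ?_, ?_⟩
      · rw [hmem]
        exact Equiv.swap_apply_of_ne_of_ne h01 (Ne.symm hx)
      · rw [hmem]
        simp
      · group
    · rw [hH, MulAction.index_stabilizer_of_transitive, Nat.card_eq_fintype_card, Fintype.card_fin]
      omega

end H6.CM
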